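import Pool.Agent.Y167.Nest.Top
import Pool.Agent.Y167.Nest.Cell
import Pool.Agent.Y167.Nest.Gen
import Pool.Agent.Y167.Nest.Seq

set_option autoImplicit false

open Set

namespace Pool.Agent.Results.MP_9fe036_gt.MaximalNest

/-- Euclidean space of dimension three. -/
abbrev E3 : Type := EuclideanSpace ℝ (Fin 3)

/-- A topological sphere: a subset of `ℝ³` homeomorphic to the unit sphere of `ℝ³`. -/
def IsTopSphere (S : Set E3) : Prop := Nonempty (S ≃ₜ Metric.sphere (0 : E3) 1)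

/-- The interior of `S`: the points off `S` whose component in the complement of `S` is
bounded. -/
def inside (S : Set E3) : Set E3 :=
  {x | x ∉ S ∧ Bornology.IsBounded (connectedComponentIn Sᶜ x)}

/-- `S₀, S₁, S₂, …` is a maximal nest of topological spheres in `O`: each sphere lies in the
interior of the next one, the interiors lie in `O` and exhaust `O`, no topological sphere of `ℝ³`
lies between two consecutive ones, and every topological sphere `T ⊆ O` enclosing `Sₘ` meets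
`Sₙ` for some `n > m`. -/
structure IsMaximalNest (O : Set E3) (S : ℕ → Set E3) : Prop where
  sphere : ∀ n, IsTopSphere (S n)
  nested : ∀ n, S n ⊆ inside (S (n + 1))
  sub : ∀ n, inside (S n) ⊆ O
  exhaust : ∀ K : Set E3, IsCompact K → K ⊆ O → ∃ N, ∀ n, N ≤ n → K ⊆ inside (S n)
  none_between : ∀ n, ¬ ∃ T : Set E3, IsTopSphere T ∧ S n ⊆ inside T ∧ T ⊆ inside (S (n + 1))
  meets : ∀ (m : ℕ) (T : Set E3), IsTopSphere T → T ⊆ O → S m ⊆ inside T →
    ∃ n, m < n ∧ (T ∩ S n).Nonempty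

theorem topSphere_facts {T : Set E3} (hT : IsTopSphere T) : IsCompact T ∧ IsConnected T := by
  obtain ⟨e⟩ := hT
  haveI : CompactSpace T := e.symm.compactSpace
  haveI : ConnectedSpace (Metric.sphere (0 : E3) 1) := by
    rw [← isConnected_iff_connectedSpace]
    apply isConnected_sphere
    · rw [← Module.finrank_eq_rank]
      simp
    · norm_num
  haveI : ConnectedSpace T := e.symm.surjective.connectedSpace e.symm.continuous
  exact ⟨isCompact_iff_compactSpace.2 inferInstance, isConnected_iff_connectedSpace.2 inferInstance⟩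

theorem rank_E3 : 1 < Module.rank ℝ E3 := by
  rw [← Module.finrank_eq_rank]
  simp

open Pool.Agent.Helper607.Wild (R3 S2 eC insE range_sub_iff' range_sub_iff_l range_sub_iff_r
  mem_insE_iff) in
/-- The nest in the whole space. -/
theorem base : ∃ S : ℕ → Set E3, (∀ n, IsTopSphere (S n)) ∧ (∀ n, S n ⊆ inside (S (n + 1))) ∧
    (∀ n, ¬ ∃ T : Set E3, IsTopSphere T ∧ S n ⊆ inside T ∧ T ⊆ inside (S (n + 1))) ∧
    (∀ r : ℝ, ∃ N, ∀ n, N ≤ n → Metric.ball (0 : E3) r ⊆ inside (S n)) := by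
  obtain ⟨F, cF, jF, gF, bF⟩ := Pool.Agent.Y167.Nest.exists_nest
  let S : ℕ → Set E3 := fun n => range (fun x => eC.symm (F n x))
  have hS : ∀ n, IsTopSphere (S n) := fun n =>
    ⟨(((eC.symm.continuous.comp (cF n)).isClosedEmbedding
      (eC.symm.injective.comp (jF n))).isEmbedding.toHomeomorph).symm⟩
  have hn : ∀ n, S n ⊆ inside (S (n + 1)) := fun n => (range_sub_iff' _ _).2 (gF n).1
  refine ⟨S, hS, hn, ?_, ?_⟩
  · rintro n ⟨T, ⟨e⟩, h1, h2⟩
    have hr : range (fun x => (e.symm x : E3)) = T := by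
      ext y
      constructor
      · rintro ⟨x, rfl⟩
        exact (e.symm x).2
      · intro hy
        exact ⟨e ⟨y, hy⟩, by simp⟩
    rw [← hr] at h1 h2
    exact (gF n).2 ⟨fun x => eC (e.symm x : E3),
      eC.continuous.comp (continuous_subtype_val.comp e.symm.continuous),
      eC.injective.comp (Subtype.val_injective.comp e.symm.injective),
      (range_sub_iff_r _ _).1 h2, (range_sub_iff_l _ _).1 h1⟩
  · intro r
    obtain ⟨N, hN⟩ := exists_nat_ge (‖(eC : E3 →L[ℝ] R3)‖ * |r|)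
    refine ⟨N, fun n hn x hx => ?_⟩
    refine (mem_insE_iff _ _).2 ?_
    have h1 : (eC '' S n) = range (F n) := by
      rw [← range_comp]
      congr 1
    rw [h1]
    apply bF
    have h2 : ‖eC x‖ ≤ ‖(eC : E3 →L[ℝ] R3)‖ * ‖x‖ := (eC : E3 →L[ℝ] R3).le_opNorm x
    have h3 : ‖x‖ ≤ |r| := (mem_ball_zero_iff.1 hx).le.trans (le_abs_self r)
    have h4 : ‖(eC : E3 →L[ℝ] R3)‖ * ‖x‖ ≤ ‖(eC : E3 →L[ℝ] R3)‖ * |r| :=
      mul_le_mul_of_nonneg_left h3 (norm_nonneg _)
    have h5 : (N : ℝ) ≤ n := Nat.cast_le.2 hn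
    have h6 : (0 : ℝ) ≤ n := Nat.cast_nonneg n
    linarith

/-- If the interior of `S₁` is homeomorphic to `ℝ³`, then some topological sphere lies between
`S₁` and `S₂`. -/
theorem between (S₁ S₂ : Set E3) (h1 : IsTopSphere S₁) (h2 : IsTopSphere S₂)
    (h21 : S₂ ⊆ inside S₁) (h : Nonempty (inside S₁ ≃ₜ E3)) :
    ∃ S₃ : Set E3, IsTopSphere S₃ ∧ S₂ ⊆ inside S₃ ∧ S₃ ⊆ inside S₁ := by
  obtain ⟨h⟩ := h
  exact Pool.Agent.Y167.Nest.exists_between (topSphere_facts h1).1.isClosed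
    (topSphere_facts h2).1 h21 h

/-- Every open subset `O` of `ℝ³` homeomorphic to `ℝ³` (for instance `ℝ³`, a ball, or the
interior of a tame sphere) contains a maximal nest `S₀, S₁, …` of topological spheres exhausting
`O`: no topological sphere lies between `Sₙ` and `Sₙ₊₁`, for any `n`, and every topological sphere
in `O` enclosing some `Sₘ` meets a later `Sₙ`; moreover no `int Sₙ₊₁` is homeomorphic to `ℝ³`. -/
theorem result (O : Set E3) (hO : IsOpen O) (hcell : Nonempty (O ≃ₜ E3)) :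
    ∃ S : ℕ → Set E3, IsMaximalNest O S ∧ ∀ n, IsEmpty (inside (S (n + 1)) ≃ₜ E3) := by
  obtain ⟨e⟩ := hcell
  obtain ⟨S, hS, hn, hno, hex⟩ := base
  have hmax := Pool.Agent.Y167.Nest.meets IsTopSphere
    (fun T hT => ⟨(topSphere_facts hT).1.isClosed, (topSphere_facts hT).2.isPreconnected,
      (topSphere_facts hT).2.nonempty⟩) S hS hn hno (by
        intro x
        obtain ⟨N, hN⟩ := hex (‖x‖ + 1)
        exact ⟨N, fun n hn => hN n hn (by rw [mem_ball_zero_iff]; linarith)⟩)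
  let g : E3 → E3 := fun x => (e.symm x : E3)
  have hg : Topology.IsOpenEmbedding g :=
    hO.isOpenEmbedding_subtypeVal.comp e.symm.isOpenEmbedding
  have hgO : range g = O := by
    ext y
    constructor
    · rintro ⟨x, rfl⟩
      exact (e.symm x).2
    · intro hy
      exact ⟨e ⟨y, hy⟩, by simp [g]⟩
  have hSc : ∀ n, IsCompact (S n) := fun n => (topSphere_facts (hS n)).1
  have himg : ∀ T : Set E3, IsTopSphere T → IsTopSphere (g '' T) := by
    rintro T ⟨f⟩
    exact ⟨(hg.isEmbedding.homeomorphImage T).symm.trans f⟩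
  have hpre : ∀ T : Set E3, IsTopSphere T → T ⊆ O →
      IsTopSphere (g ⁻¹' T) ∧ g '' (g ⁻¹' T) = T := by
    rintro T ⟨f⟩ hTO
    have h1 : g '' (g ⁻¹' T) = T := image_preimage_eq_of_subset (by rw [hgO]; exact hTO)
    refine ⟨⟨(hg.isEmbedding.homeomorphImage (g ⁻¹' T)).trans
      ((Homeomorph.setCongr h1).trans f)⟩, h1⟩
  have hsub : ∀ n, inside (g '' S n) ⊆ O := fun n => by
    have := Pool.Agent.Y167.Nest.ins_sub_range rank_E3 hg (hSc n)
    rw [hgO] at this
    exact this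
  have hnb : ∀ n, ¬ ∃ T : Set E3, IsTopSphere T ∧ g '' S n ⊆ inside T ∧
      T ⊆ inside (g '' S (n + 1)) := by
    rintro n ⟨T, hT, h1, h2⟩
    obtain ⟨h3, h4⟩ := hpre T hT (h2.trans (hsub _))
    rw [← h4] at h1 h2
    exact hno n ⟨g ⁻¹' T, h3,
      (Pool.Agent.Y167.Nest.sub_ins_image rank_E3 hg (topSphere_facts h3).1).1 h1,
      (Pool.Agent.Y167.Nest.sub_ins_image rank_E3 hg (hSc _)).1 h2⟩
  refine ⟨fun n => g '' S n, ⟨fun n => himg _ (hS n), fun n => ?_, hsub, ?_, hnb, ?_⟩, ?_⟩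
  · exact (Pool.Agent.Y167.Nest.sub_ins_image rank_E3 hg (hSc _)).2 (hn n)
  · intro K hK hKO
    have h1 : g '' (g ⁻¹' K) = K := image_preimage_eq_of_subset (by rw [hgO]; exact hKO)
    have h2 : IsCompact (g ⁻¹' K) := by
      rw [hg.isInducing.isCompact_preimage_iff (by rw [hgO]; exact hKO)]
      exact hK
    obtain ⟨R, -, hR⟩ := Pool.Agent.Y167.Nest.exists_radius h2
    obtain ⟨N, hN⟩ := hex R
    refine ⟨N, fun n hn => ?_⟩
    rw [← h1]
    exact (Pool.Agent.Y167.Nest.sub_ins_image rank_E3 hg (hSc _)).2 (hR.trans (hN n hn))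
  · intro m T hT hTO hm
    obtain ⟨h3, h4⟩ := hpre T hT hTO
    rw [← h4] at hm
    obtain ⟨n, hmn, x, hx1, hx2⟩ := hmax m (g ⁻¹' T) h3
      ((Pool.Agent.Y167.Nest.sub_ins_image rank_E3 hg (topSphere_facts h3).1).1 hm)
    exact ⟨n, hmn, g x, hx1, x, hx2, rfl⟩
  · intro n
    refine ⟨fun h => hnb n ?_⟩
    exact between (g '' S (n + 1)) (g '' S n) (himg _ (hS _)) (himg _ (hS _))
      ((Pool.Agent.Y167.Nest.sub_ins_image rank_E3 hg (hSc _)).2 (hn n)) ⟨h⟩

end Pool.Agent.Results.MP_9fe036_gt.MaximalNest
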